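import Pool.Agent.H41.DL.Glue
import Pool.Agent.H42.DL.Delta

/-!
# DELTA (MP_d362fb_lc): two conditions which agree on the root are compatible
-/

set_option autoImplicit false

namespace Pool.Agent.H41.DL

open H5.DL Pool.Agent.DL.P

theorem fresh_perm {J1 J2 : Set ℕ} (h1 : J1.Finite) (h2 : J2.Finite) {a b : ℕ} (ha : a ∈ J2)
    (hb : b ∈ J1) : ∃ σ : Equiv.Perm ℕ, σ a = b ∧ ∀ x ∈ J2, x ≠ a → σ x ∉ J1 := by
  obtain ⟨M, hM⟩ : ∃ M, ∀ x ∈ J1 ∪ J2, x < M := by
    obtain ⟨M, hM⟩ := (h1.union h2).bddAbove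
    exact ⟨M + 1, fun x hx => Nat.lt_succ_of_le (hM hx)⟩
  let f : ℕ → ℕ := fun x => if x < M then x + M else if x < 2 * M then x - M else x
  have hf : Function.Involutive f := by
    intro x
    simp only [f]
    split_ifs <;> omega
  have hfJ : ∀ x ∈ J2, f x = x + M := fun x hx => if_pos (hM x (Or.inr hx))
  refine ⟨Equiv.swap (a + M) b * hf.toPerm f, ?_, ?_⟩
  · show Equiv.swap (a + M) b (f a) = b
    rw [hfJ a ha, Equiv.swap_apply_left]
  · intro x hx hxa
    show Equiv.swap (a + M) b (f x) ∉ J1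
    have hbM := hM b (Or.inl hb)
    rw [hfJ x hx, Equiv.swap_apply_of_ne_of_ne (by omega) (by omega)]
    intro h
    have := hM _ (Or.inl h)
    omega

theorem valid_ren {Lg : Prom → Prop} {r : Sys Prom} (h : Valid Lg r) (σ : Equiv.Perm ℕ) :
    Valid Lg (r.ren σ) where
  fin := h.fin.preimage σ.symm.injective.injOn
  rt := by
    show σ.symm (σ r.rt) ∈ r.J
    rw [Equiv.symm_apply_apply]; exact h.rt
  Es := fun p q hE => h.Es _ _ hE
  EJ := fun p q hE => h.EJ _ _ hE
  forest := fun b hb => by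
    obtain ⟨rk, h1, h2, h3⟩ := h.forest _ hb
    refine ⟨fun v => rk (σ.symm v), fun v hv hvb => ?_, fun p q hE => h2 _ _ hE, ?_⟩
    · exact h1 _ hv fun h' => hvb (σ.symm.injective h')
    · exact fun v a a' ha ha' hl hl' => σ.symm.injective (h3 _ _ _ ha ha' hl hl')
  low := fun j hj => h.low _ hj
  symZ := fun p q => h.symZ _ _
  good := fun p q hE => h.good _ _ hE
  nX := fun j hj => h.nX _ hj
  nZ := fun p q hE => h.nZ _ _ hE
  val := fun j hj => h.val _ hj
  adm := fun p q hE => h.adm _ _ hE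
  sh := fun p q hE => h.sh _ _ hE

theorem emb_ren {e r : Sys Prom} {J0 : Set ℕ} {j : ℕ} {ρ : ℕ → ℕ} (h : Emb e r J0 j ρ)
    (σ : Equiv.Perm ℕ) :
    Emb e (r.ren σ) {j | σ.symm j ∈ J0} (σ j) (fun a => σ (ρ a)) where
  n := h.n
  rt := congrArg σ h.rt
  J := fun a ha => by
    show σ.symm (σ (ρ a)) ∈ r.J
    rw [Equiv.symm_apply_apply]; exact h.J a ha
  inj := fun a ha b hb hab => h.inj a ha b hb (σ.injective hab)
  new := fun a ha hne h' => by
    have h2 : σ.symm (σ (ρ a)) ∈ J0 := h'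
    rw [Equiv.symm_apply_apply] at h2
    exact h.new a ha hne h2
  E := fun a b hE => by
    show r.E (σ.symm (σ (ρ a))) (σ.symm (σ (ρ b)))
    rw [Equiv.symm_apply_apply, Equiv.symm_apply_apply]; exact h.E a b hE
  E' := fun a ha hne w hE => by
    have h2 : r.E (σ.symm (σ (ρ a))) (σ.symm w) := hE
    rw [Equiv.symm_apply_apply] at h2
    obtain ⟨b, hb, hw⟩ := h.E' a ha hne _ h2
    exact ⟨b, hb, by rw [← hw, Equiv.apply_symm_apply]⟩
  K := fun a ha hne => by
    show r.K (σ.symm (σ (ρ a))) = e.K a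
    rw [Equiv.symm_apply_apply]; exact h.K a ha hne
  Z := fun a b hE => by
    show r.Z (σ.symm (σ (ρ a))) (σ.symm (σ (ρ b))) = e.Z a b
    rw [Equiv.symm_apply_apply, Equiv.symm_apply_apply]; exact h.Z a b hE
  X := fun a ha => by
    show Ex (e.X a) (r.X (σ.symm (σ (ρ a))))
    rw [Equiv.symm_apply_apply]; exact h.X a ha

theorem ext_ren {r r' : Sys Prom} (h : Ext r r') (σ : Equiv.Perm ℕ) :
    Ext (r.ren σ) (r'.ren σ) where
  n := h.n
  rt := congrArg σ h.rt
  J := fun j hj => h.J hj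
  E := fun p hp q hq => h.E _ hp _ hq
  K := fun j hj => h.K _ hj
  Z := fun p q hE => h.Z _ _ hE
  X := fun j hj => h.X _ hj
  rel := fun j hj φ h1 m h2 h3 => by
    obtain ⟨e, ρ, h4, h5⟩ := h.rel _ hj φ h1 m h2 h3
    refine ⟨e, fun a => σ (ρ a), h4, ?_⟩
    have h6 := emb_ren h5 σ
    rw [Equiv.apply_symm_apply] at h6
    exact h6

theorem ren_symm (r : Sys Prom) (σ : Equiv.Perm ℕ) : (r.ren σ).ren σ.symm = r := by
  have e : ∀ j, σ.symm (σ.symm.symm j) = j := fun j => by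
    rw [Equiv.symm_symm, Equiv.symm_apply_apply]
  ext1
  · rfl
  · exact σ.symm_apply_apply r.rt
  · ext j
    show σ.symm (σ.symm.symm j) ∈ r.J ↔ j ∈ r.J
    rw [e]
  · funext p q
    show r.E (σ.symm (σ.symm.symm p)) (σ.symm (σ.symm.symm q)) = r.E p q
    rw [e, e]
  · funext p
    show r.K (σ.symm (σ.symm.symm p)) = r.K p
    rw [e]
  · funext p q
    show r.Z (σ.symm (σ.symm.symm p)) (σ.symm (σ.symm.symm q)) = r.Z p q
    rw [e, e]
  · funext p
    show r.X (σ.symm (σ.symm.symm p)) = r.X p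
    rw [e]

/-- two conditions which agree on the root are compatible -/
theorem glue_all : Glue := by
  rintro ⟨r1, c1⟩ ⟨r2, c2⟩ hA
  replace hA : Agree r1 r2 := hA
  obtain ⟨σ, hσ, hσ'⟩ := fresh_perm c1.val.fin c2.val.fin c2.val.rt c1.val.rt
  have hg : GH Legal r1 (r2.ren σ) r1.rt := {
    v1 := c1.val
    v2 := valid_ren c2.val σ
    n := hA.n
    j1 := c1.val.rt
    j2 := hσ
    J := fun p hp hp2 => by
      have h2 : σ.symm p ∈ r2.J := hp2
      by_contra hne
      have hne2 : σ.symm p ≠ r2.rt := fun h => hne (by rw [← hσ, ← h, Equiv.apply_symm_apply])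
      have := hσ' _ h2 hne2
      rw [Equiv.apply_symm_apply] at this
      exact this hp
    top := by
      show r2.K (σ.symm r1.rt) = Set.univ
      rw [← hσ, Equiv.symm_apply_apply]; exact c2.top
    Z := fun a _ l _ => by rw [c1.top]; trivial
    P := fun φ _ => by rw [c1.top]; trivial
    it := fun x m v h1 h2 => by
      have e : (r2.ren σ).X r1.rt = r2.X r2.rt := by
        show r2.X (σ.symm r1.rt) = r2.X r2.rt
        rw [← hσ, Equiv.symm_apply_apply]
      rw [e] at h2 ⊢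
      exact hA.it x m v h1 h2
    rl := fun φ m h1 h2 => by
      have e : (r2.ren σ).X r1.rt = r2.X r2.rt := by
        show r2.X (σ.symm r1.rt) = r2.X r2.rt
        rw [← hσ, Equiv.symm_apply_apply]
      rw [e] at h2 ⊢
      exact hA.rl φ m h1 h2 }
  have hv := glue_valid hg
  have hc : IsCond (glue r1 (r2.ren σ) r1.rt) := {
    val := hv
    top := (hg.K1 c1.val.rt).trans c1.top
    bdd := fun j hj hne => by
      by_cases h1 : j ∈ r1.J
      · rw [hg.K1 h1]; exact c1.bdd j h1 hne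
      · have h2 : j ∈ (r2.ren σ).J := hj.resolve_left h1
        rw [hg.K2 h2 hne]
        refine c2.bdd (σ.symm j) h2 fun h => hne ?_
        show j = r1.rt
        rw [← hσ, ← h, Equiv.apply_symm_apply] }
  refine ⟨⟨_, hc⟩, ⟨Equiv.refl ℕ, ?_⟩, ⟨σ.symm, ?_⟩⟩
  · exact Relation.ReflTransGen.single ⟨hv, Or.inl (glue_ext1 hg)⟩
  · have h1 := ext_ren (glue_ext2 hg rfl c1.top) σ.symm
    rw [ren_symm] at h1
    exact Relation.ReflTransGen.single ⟨valid_ren hv _, Or.inl h1⟩

end Pool.Agent.H41.DL
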