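import Pool.Agent.H41.DL.Comp

/-!
# DELTA (MP_d362fb_lc): release of a promise, with copies of the event attached at all components
which share the promise
-/

set_option autoImplicit false

namespace Pool.Agent.H41.DL

open H5.DL Pool.Agent.DL.P

theorem valid_mono {Lg Lg' : Prom → Prop} {r : Sys Prom} (h : Valid Lg r)
    (hL : ∀ φ, Lg φ → Lg' φ) : Valid Lg' r where
  fin := h.fin
  rt := h.rt
  Es := h.Es
  EJ := h.EJ
  forest := h.forest
  low := h.low
  symZ := h.symZ
  good := h.good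
  nX := h.nX
  nZ := h.nZ
  val := fun j hj =>
    { fin := (h.val j hj).fin
      itb := (h.val j hj).itb
      blx := (h.val j hj).blx
      dsx := (h.val j hj).dsx
      rlx := (h.val j hj).rlx
      fn := (h.val j hj).fn
      leg := fun φ hφ => ⟨hL φ ((h.val j hj).leg φ hφ).1, ((h.val j hj).leg φ hφ).2⟩ }
  adm := h.adm
  sh := h.sh

theorem has_mono {Z Z' : Fr Prom} (h : Fr.Le Z Z') {f : Fact Prom} (hf : Z.Has f) : Z'.Has f := by
  cases f with
  | nd x => exact h.1 hf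
  | it x m v => exact h.1 hf
  | bl x m => exact h.1 hf
  | ds x y => exact ⟨h.1 hf.1, h.1 hf.2⟩
  | pr φ => exact h.2.1 hf
  | rl φ m => exact h.2.1 hf

/-- the facts of an event of a promise in a frame are in the frame -/
theorem ev_has {φ : Prom} {m : ℕ} {e : Sys Prom} (hev : Ev φ m e) {Z : Fr Prom} (hZ : φ.In Z)
    (a : ℕ) (f : Fact Prom) (hf : f ∈ e.X a) : Z.Has f := by
  cases φ with
  | nil k => exact hev.elim
  | mk k c nd lb R =>
    refine has_mono ?_ (hev.1.X a f hf)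
    refine ⟨?_, ?_, ?_⟩
    · rintro _ ⟨n, rfl⟩; exact (hZ.2 n).2.1
    · rintro _ ⟨n, rfl⟩; exact (hZ.2 n).1
    · rintro _ ⟨n, rfl⟩; exact (hZ.2 n).2.2

/-- facts of the event are shared along the sharing paths of the promise -/
theorem ev_cn {r : Sys Prom} (h : Valid Legal r) {φ : Prom} {m : ℕ} {e : Sys Prom}
    (hev : Ev φ m e) {i j : ℕ} (hc : Cn r (.pr φ) i j) (f : Fact Prom) (hf : f ∈ e.X e.rt) :
    Cn r f i j := by
  induction hc with
  | refl => exact Relation.ReflTransGen.refl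
  | tail _ h2 ih =>
    exact ih.tail ⟨h2.1, ev_has hev ((h.good _ _ h2.1).z3 φ h2.2) _ f hf⟩

theorem ev_ex {r : Sys Prom} (h : Valid Legal r) {φ : Prom} {m : ℕ} {e : Sys Prom}
    (hev : Ev φ m e) {i j : ℕ} (hc : Cn r (.pr φ) i j)
    (hx : Ex (e.X e.rt) (r.X i)) : Ex (e.X e.rt) (r.X j) where
  sub := fun f hf => (ev_cn h hev hc f hf).mem h (hx.sub hf)
  it := fun x m' v h1 h2 => by
    have h3 : Cn r (.it x m' v) i j := (ev_cn h hev hc _ h1).mono fun Z hZ => hZ
    exact hx.it x m' v h1 ((h3.symm h).mem h h2)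
  rl := fun ψ m' h1 h2 => by
    have h3 : Cn r (.rl ψ m') i j := (ev_cn h hev hc _ h1).mono fun Z hZ => hZ
    exact hx.rl ψ m' h1 ((h3.symm h).mem h h2)

/-- the data of an event of a legal promise which are used -/
structure EvD (φ : Prom) (e : Sys Prom) : Prop where
  val : Valid Legal e
  top : e.K e.rt = Set.univ
  lev : ∀ j ∈ e.J, j ≠ e.rt → e.K j ⊆ dn φ.lab
  lab : ∀ j ψ, .pr ψ ∈ e.X j → Ll ψ.lab φ.lab
  L : ∀ p q, ∀ l ∈ (e.Z p q).L, Ll l φ.lab
  Q : ∀ p q, φ ∉ (e.Z p q).Q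
  fr : ∀ p q, ∀ x ∈ (e.Z p q).N, x.Free φ.lab
  nd : ∀ j x, .nd x ∈ e.X j → x.Free φ.lab

theorem evD {φ : Prom} (hl : Legal φ) {m : ℕ} {e : Sys Prom} (hev : Ev φ m e) : EvD φ e := by
  have h1 := (legal_iff φ).1 hl
  obtain ⟨Z, hZ, hZL, hZN, hE⟩ := h1.fr
  obtain ⟨h2, h3⟩ := hE m e hev
  refine ⟨valid_mono h2.val fun ψ hψ => hψ.2, h2.top, h2.lev, ?_, ?_, ?_, ?_, ?_⟩
  · intro j ψ hψ
    have hj : j ∈ e.J := mem_J h2.val hψ
    exact ((h2.val.val j hj).leg ψ hψ).1.1
  · exact fun p q l hl => hZL l ((h3.Z p q).2.2 hl)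
  · intro p q hq
    exact Ll.irrefl _ (hZL _ (In_lab (hZ.z3 φ ((h3.Z p q).2.1 hq))))
  · exact fun p q x hx => hZN x ((h3.Z p q).1 hx)
  · exact fun j x hx => hZN x (h3.X j _ hx)

/-- `s` is obtained from `r` by attaching copies of `e` at the components of `T` -/
structure Att (φ : Prom) (e r s : Sys Prom) (T : Set ℕ) : Prop where
  val : Valid Legal s
  n : s.n = r.n
  rt : s.rt = r.rt
  J : r.J ⊆ s.J
  E : ∀ p ∈ r.J, ∀ q ∈ r.J, s.E p q ↔ r.E p q
  K : ∀ j ∈ r.J, s.K j = r.K j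
  Z : ∀ p q, r.E p q → s.Z p q = r.Z p q
  X : ∀ j ∈ r.J, s.X j = r.X j
  emb : ∀ j ∈ T, ∃ ρ, Emb e s r.J j ρ
  ne : ∀ j ∈ r.J, ∀ q, q ∉ r.J → s.E j q → j ∈ T ∧ ∃ a, e.E e.rt a ∧ s.Z j q = e.Z e.rt a
  lev : ∀ q ∈ s.J, q ∉ r.J → s.K q ⊆ dn φ.lab
  anc : ∃ anc : ℕ → ℕ, (∀ q ∈ s.J, q ∉ r.J → anc q ∈ T) ∧
    (∀ q q', q ∉ r.J → q' ∉ r.J → s.E q q' → anc q = anc q') ∧
    ∀ j ∈ r.J, ∀ q, q ∉ r.J → s.E j q → anc q = j
  Q : ∀ p q, s.E p q → q ∉ r.J → φ ∉ (s.Z p q).Q

theorem att_step {φ : Prom} {e r s : Sys Prom} {T : Set ℕ} (he : EvD φ e) (hr : Valid Legal r)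
    (hn : e.n = r.n) (hA : Att φ e r s T) {j : ℕ} (hj : j ∈ r.J) (hφ : Fact.pr φ ∈ r.X j)
    (hx : Ex (e.X e.rt) (r.X j)) : ∃ s', Att φ e r s' (insert j T) := by
  classical
  have hjs : j ∈ s.J := hA.J hj
  obtain ⟨σ, hσ, hσ'⟩ := fresh_perm hA.val.fin he.val.fin he.val.rt hjs
  have hσs : σ.symm j = e.rt := by rw [← hσ, Equiv.symm_apply_apply]
  have hXj : (e.ren σ).X j = e.X e.rt := by
    show e.X (σ.symm j) = _
    rw [hσs]
  have hlab : φ.lab ∈ s.K j := by
    rw [hA.K j hj]; exact ((hr.val j hj).leg φ hφ).2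
  have hlow : ∀ l, Ll l φ.lab → l ∈ s.K j := fun l hl =>
    (hA.val.low j hjs) hl.le hlab
  have hg : GH Legal s (e.ren σ) j := {
    v1 := hA.val
    v2 := valid_ren he.val σ
    n := hA.n.trans hn.symm
    j1 := hjs
    j2 := hσ
    J := fun p hp hp2 => by
      have h2 : σ.symm p ∈ e.J := hp2
      by_contra hne
      have hne2 : σ.symm p ≠ e.rt := fun h => hne (by rw [← hσ, ← h, Equiv.apply_symm_apply])
      have := hσ' _ h2 hne2
      rw [Equiv.apply_symm_apply] at this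
      exact this hp
    top := by
      show e.K (σ.symm j) = Set.univ
      rw [hσs]; exact he.top
    Z := fun a _ l hl => hlow l (he.L _ _ l hl)
    P := fun ψ hψ => by
      rw [hXj] at hψ
      exact hlow _ (he.lab _ ψ hψ)
    it := fun x m v h1 h2 => by
      rw [hXj] at h2 ⊢
      rw [hA.X j hj]
      exact ⟨fun h => hx.it x m v h2 h, fun h => hx.sub h⟩
    rl := fun ψ m h1 h2 => by
      rw [hXj] at h2 ⊢
      rw [hA.X j hj]
      exact ⟨fun h => hx.rl ψ m h2 h, fun h => hx.sub h⟩ }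
  have hemb := glue_emb hg
  have hXold : ∀ p ∈ s.J, (glue s (e.ren σ) j).X p = s.X p := by
    intro p hp
    rw [hg.X1 hp]
    ext f
    constructor
    · rintro (hf | ⟨hf, hc⟩)
      · exact hf
      · rw [hXj] at hf
        refine hc.mem hA.val ?_
        rw [hA.X j hj]
        exact hx.sub hf
    · exact fun hf => Or.inl hf
  have hnotE : ∀ p ∈ s.J, ∀ q ∈ s.J, ¬ (e.ren σ).E p q := by
    intro p hp q hq hE
    obtain ⟨h1, h2⟩ := E_J hg.v2 hE
    exact ne_of_E hg.v2 hE ((hg.J p hp h1).trans (hg.J q hq h2).symm)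
  have hnew : ∀ p, p ∈ (e.ren σ).J → p ≠ j → p ∉ s.J := fun p h1 h2 h3 => h2 (hg.J p h3 h1)
  obtain ⟨anc, a1, a2, a3⟩ := hA.anc
  refine ⟨glue s (e.ren σ) j, ?_⟩
  refine {
    val := glue_valid hg
    n := hA.n
    rt := hA.rt
    J := fun p hp => Or.inl (hA.J hp)
    E := fun p hp q hq => by
      refine ⟨fun hE => hE.elim (fun h => (hA.E p hp q hq).1 h) fun h =>
        (hnotE p (hA.J hp) q (hA.J hq) h).elim, fun hE => Or.inl ((hA.E p hp q hq).2 hE)⟩
    K := fun p hp => (hg.K1 (hA.J hp)).trans (hA.K p hp)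
    Z := fun p q hE => by
      obtain ⟨hp, hq⟩ := E_J hr hE
      rw [hg.Z1 ((hA.E p hp q hq).2 hE)]
      exact hA.Z p q hE
    X := fun p hp => (hXold p (hA.J hp)).trans (hA.X p hp)
    emb := ?_
    ne := ?_
    lev := ?_
    anc := ?_
    Q := ?_ }
  · rintro p (rfl | hp)
    · refine ⟨σ, ?_⟩
      have hmem : ∀ a, a ∈ e.J → σ a ∈ (e.ren σ).J := fun a ha => by
        show σ.symm (σ a) ∈ e.J
        rw [Equiv.symm_apply_apply]; exact ha
      have hne : ∀ a, a ≠ e.rt → σ a ≠ (e.ren σ).rt := fun a ha h => ha (σ.injective h)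
      refine {
        n := hn.trans hA.n.symm
        rt := hσ
        J := fun a ha => hemb.J _ (hmem a ha)
        inj := fun a _ b _ hab => σ.injective hab
        new := fun a ha hne' h' => hσ' a ha hne' (hA.J h')
        E := fun a b hE => hemb.E (σ a) (σ b) (by
          show e.E (σ.symm (σ a)) (σ.symm (σ b))
          rw [Equiv.symm_apply_apply, Equiv.symm_apply_apply]; exact hE)
        E' := fun a ha hne' w hE => by
          obtain ⟨b, hb, hw⟩ := hemb.E' (σ a) (hmem a ha) (hne a hne') w hE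
          refine ⟨σ.symm b, ?_, ?_⟩
          · have hb' : e.E (σ.symm (σ a)) (σ.symm b) := hb
            rw [Equiv.symm_apply_apply] at hb'
            exact hb'
          · rw [Equiv.apply_symm_apply]; exact hw
        K := fun a ha hne' => by
          refine (hemb.K (σ a) (hmem a ha) (hne a hne')).trans ?_
          show e.K (σ.symm (σ a)) = e.K a
          rw [Equiv.symm_apply_apply]
        Z := fun a b hE => by
          refine (hemb.Z (σ a) (σ b) (by
            show e.E (σ.symm (σ a)) (σ.symm (σ b))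
            rw [Equiv.symm_apply_apply, Equiv.symm_apply_apply]; exact hE)).trans ?_
          show e.Z (σ.symm (σ a)) (σ.symm (σ b)) = e.Z a b
          rw [Equiv.symm_apply_apply, Equiv.symm_apply_apply]
        X := fun a ha => by
          have h1 := hemb.X (σ a) (hmem a ha)
          have h2 : (e.ren σ).X (σ a) = e.X a := by
            show e.X (σ.symm (σ a)) = e.X a
            rw [Equiv.symm_apply_apply]
          rw [h2] at h1
          exact h1 }
    · obtain ⟨ρ, hρ⟩ := hA.emb p hp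
      refine ⟨ρ, ?_⟩
      refine {
        n := hρ.n
        rt := hρ.rt
        J := fun a ha => Or.inl (hρ.J a ha)
        inj := hρ.inj
        new := hρ.new
        E := fun a b hE => Or.inl (hρ.E a b hE)
        E' := fun a ha hne w hE => by
          rcases hE with hE | hE
          · exact hρ.E' a ha hne w hE
          · exfalso
            have h1 := hg.J _ (hρ.J a ha) (E_J hg.v2 hE).1
            exact hρ.new a ha hne (h1 ▸ hj)
        K := fun a ha hne => (hg.K1 (hρ.J a ha)).trans (hρ.K a ha hne)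
        Z := fun a b hE => (hg.Z1 (hρ.E a b hE)).trans (hρ.Z a b hE)
        X := fun a ha => by
          rw [hXold _ (hρ.J a ha)]
          exact hρ.X a ha }
  · rintro p hp q hq (hE | hE)
    · obtain ⟨h1, a, h2, h3⟩ := hA.ne p hp q hq hE
      exact ⟨Or.inr h1, a, h2, (hg.Z1 hE).trans h3⟩
    · have hpj : p = j := hg.J p (hA.J hp) (E_J hg.v2 hE).1
      refine ⟨Or.inl hpj, σ.symm q, ?_, ?_⟩
      · have h2 : e.E (σ.symm p) (σ.symm q) := hE
        rw [hpj, hσs] at h2
        exact h2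
      · rw [hg.Z2 hE]
        show e.Z (σ.symm p) (σ.symm q) = _
        rw [hpj, hσs]
  · rintro q hq hqr
    by_cases hqs : q ∈ s.J
    · rw [hg.K1 hqs]; exact hA.lev q hqs hqr
    · have hq2 : q ∈ (e.ren σ).J := hq.resolve_left hqs
      have hqj : q ≠ j := fun h => hqs (h ▸ hjs)
      rw [hg.K2 hq2 hqj]
      refine he.lev (σ.symm q) hq2 fun h => hqj ?_
      rw [← hσ, ← h, Equiv.apply_symm_apply]
  · refine ⟨fun q => if q ∈ s.J then anc q else j, ?_, ?_, ?_⟩
    · intro q hq hqr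
      by_cases hqs : q ∈ s.J
      · show (if q ∈ s.J then anc q else j) ∈ _
        rw [if_pos hqs]; exact Or.inr (a1 q hqs hqr)
      · show (if q ∈ s.J then anc q else j) ∈ _
        rw [if_neg hqs]; exact Or.inl rfl
    · rintro q q' hq hq' (hE | hE)
      · obtain ⟨h1, h2⟩ := E_J hA.val hE
        show (if q ∈ s.J then anc q else j) = if q' ∈ s.J then anc q' else j
        rw [if_pos h1, if_pos h2]; exact a2 q q' hq hq' hE
      · obtain ⟨h1, h2⟩ := E_J hg.v2 hE
        have e1 : q ∉ s.J := hnew q h1 fun h => hq (h ▸ hj)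
        have e2 : q' ∉ s.J := hnew q' h2 fun h => hq' (h ▸ hj)
        show (if q ∈ s.J then anc q else j) = if q' ∈ s.J then anc q' else j
        rw [if_neg e1, if_neg e2]
    · rintro p hp q hq (hE | hE)
      · show (if q ∈ s.J then anc q else j) = p
        rw [if_pos (E_J hA.val hE).2]; exact a3 p hp q hq hE
      · obtain ⟨h1, h2⟩ := E_J hg.v2 hE
        have e2 : q ∉ s.J := hnew q h2 fun h => hq (h ▸ hj)
        show (if q ∈ s.J then anc q else j) = p
        rw [if_neg e2]; exact (hg.J p (hA.J hp) h1).symm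
  · rintro p q (hE | hE) hq
    · rw [hg.Z1 hE]; exact hA.Q p q hE hq
    · rw [hg.Z2 hE]; exact he.Q _ _

/-- copies of the event at all components of a finite set -/
theorem att_all {φ : Prom} {e r : Sys Prom} (he : EvD φ e) (hr : Valid Legal r)
    (hn : e.n = r.n) (T : Set ℕ) (hT : T.Finite) (hTJ : T ⊆ r.J)
    (hφ : ∀ j ∈ T, Fact.pr φ ∈ r.X j) (hx : ∀ j ∈ T, Ex (e.X e.rt) (r.X j)) :
    ∃ s, Att φ e r s T := by
  induction T, hT using Set.Finite.induction_on with
  | empty =>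
    refine ⟨r, hr, rfl, rfl, le_refl _, fun _ _ _ _ => Iff.rfl, fun _ _ => rfl, fun _ _ _ => rfl,
      fun _ _ => rfl, fun j hj => hj.elim, ?_, fun q h1 h2 => absurd h1 h2, ⟨id, ?_, ?_, ?_⟩, ?_⟩
    · exact fun j _ q hq hE => absurd (E_J hr hE).2 hq
    · exact fun q h1 h2 => absurd h1 h2
    · exact fun q q' h1 _ hE => absurd (E_J hr hE).1 h1
    · exact fun j _ q hq hE => absurd (E_J hr hE).2 hq
    · exact fun p q hE hq => absurd (E_J hr hE).2 hq
  | @insert j T _ _ ih =>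
    obtain ⟨s, hs⟩ := ih (fun x hx => hTJ (Or.inr hx)) (fun x hx => hφ x (Or.inr hx))
      (fun x hx' => hx x (Or.inr hx'))
    exact att_step he hr hn hs (hTJ (Or.inl rfl)) (hφ j (Or.inl rfl)) (hx j (Or.inl rfl))

/-- add a released position at `i` and at all components which share it -/
def addRl (s : Sys Prom) (φ : Prom) (m i : ℕ) : Sys Prom :=
  { s with X := fun j => {f | f ∈ s.X j ∨ f = .rl φ m ∧ Cn s (.pr φ) i j} }

theorem addRl_valid {s : Sys Prom} {φ : Prom} {m i : ℕ} (h : Valid Legal s)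
    (hφ : Fact.pr φ ∈ s.X i) : Valid Legal (addRl s φ m i) where
  fin := h.fin
  rt := h.rt
  Es := h.Es
  EJ := h.EJ
  forest := h.forest
  low := h.low
  symZ := h.symZ
  good := h.good
  nX := fun j hj => by
    rw [Set.eq_empty_iff_forall_notMem]
    rintro f (hf | ⟨_, hc⟩)
    · exact hj (mem_J h hf)
    · exact hj (hc.J h (mem_J h hφ))
  nZ := h.nZ
  val := fun j hj =>
    { fin := ((h.val j hj).fin.union (Set.finite_singleton (Fact.rl φ m))).subset (by
        rintro f (hf | hf)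
        · exact Or.inl hf
        · exact Or.inr hf.1)
      itb := by
        rintro x m' v (hf | ⟨hf, _⟩)
        · exact ⟨Or.inl ((h.val j hj).itb x m' v hf).1, ((h.val j hj).itb x m' v hf).2⟩
        · cases hf
      blx := by
        rintro x m' (hf | ⟨hf, _⟩)
        · exact Or.inl ((h.val j hj).blx x m' hf)
        · cases hf
      dsx := by
        rintro x y (hf | ⟨hf, _⟩)
        · exact ⟨Or.inl ((h.val j hj).dsx x y hf).1, Or.inl ((h.val j hj).dsx x y hf).2⟩
        · cases hf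
      rlx := by
        rintro ψ m' (hf | ⟨hf, hc⟩)
        · exact Or.inl ((h.val j hj).rlx ψ m' hf)
        · have e1 : ψ = φ := (Fact.rl.inj hf).1
          rw [e1]
          exact Or.inl (hc.mem h hφ)
      fn := by
        rintro x m' v v' (hf | ⟨hf, _⟩) (hf' | ⟨hf', _⟩)
        · exact (h.val j hj).fn x m' v v' hf hf'
        · cases hf'
        · cases hf
        · cases hf
      leg := by
        rintro ψ (hf | ⟨hf, _⟩)
        · exact (h.val j hj).leg ψ hf
        · cases hf }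
  adm := h.adm
  sh := fun p q hE f hZ hf => by
    rcases hf with hf | ⟨hf, hc⟩
    · exact Or.inl (h.sh p q hE f hZ hf)
    · refine Or.inr ⟨hf, hc.tail ⟨hE, ?_⟩⟩
      have hZ' : (s.Z p q).Has f := hZ
      rw [hf] at hZ'
      exact hZ'

/-- RELEASE: the promise `φ` is released at `m` at the component `i` and at all components which
share it, with copies of the event `e` -/
theorem release {r : Sys Prom} (hr : Valid Legal r) {φ : Prom} {i m : ℕ} {e : Sys Prom}
    (hφ : Fact.pr φ ∈ r.X i) (hev : Ev φ m e) (hn : e.n = r.n) (hx : Ex (e.X e.rt) (r.X i)) :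
    ∃ r', Valid Legal r' ∧ Ext r r' ∧ Fact.rl φ m ∈ r'.X i ∧
      (∀ j ∈ r.J, ∀ f ∈ r'.X j, f ∈ r.X j ∨ f = .rl φ m) ∧
      (∀ j ∈ r.J, ∀ q, q ∉ r.J → r'.E j q →
        Relation.ReflTransGen (fun p q => r.E p q ∧ φ ∈ (r.Z p q).Q) i j ∧
          ∃ a, e.E e.rt a ∧ r'.Z j q = e.Z e.rt a) ∧
      (∀ q ∈ r'.J, q ∉ r.J → r'.K q ⊆ dn φ.lab) ∧
      ∃ anc : ℕ → ℕ, (∀ q ∈ r'.J, q ∉ r.J → anc q ∈ r.J) ∧
        (∀ q q', q ∉ r.J → q' ∉ r.J → r'.E q q' → anc q = anc q') ∧
        ∀ j ∈ r.J, ∀ q, q ∉ r.J → r'.E j q → anc q = j := by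
  have hi : i ∈ r.J := mem_J hr hφ
  have hleg := ((hr.val i hi).leg φ hφ).1
  have he : EvD φ e := evD hleg hev
  let T : Set ℕ := {j | Cn r (.pr φ) i j}
  have hTJ : T ⊆ r.J := fun j hj => Cn.J hr hj hi
  have hφT : ∀ j ∈ T, Fact.pr φ ∈ r.X j := fun j hj => Cn.mem hr hj hφ
  obtain ⟨s, hs⟩ := att_all he hr hn T (hr.fin.subset hTJ) hTJ hφT
    (fun j hj => ev_ex hr hev hj hx)
  have hφs : Fact.pr φ ∈ s.X i := by rw [hs.X i hi]; exact hφ
  -- sharing of the promise in the new system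
  have hcn : ∀ j, Cn s (.pr φ) i j → Cn r (.pr φ) i j := by
    intro j hc
    induction hc with
    | refl => exact Relation.ReflTransGen.refl
    | @tail p q _ h2 ih =>
      have hp : p ∈ r.J := Cn.J hr ih hi
      by_cases hq : q ∈ r.J
      · have hE : r.E p q := (hs.E p hp q hq).1 h2.1
        refine ih.tail ⟨hE, ?_⟩
        rw [← hs.Z p q hE]; exact h2.2
      · exact absurd h2.2 (hs.Q p q h2.1 hq)
  have hcn' : ∀ j, Cn r (.pr φ) i j → Cn s (.pr φ) i j := by
    intro j hc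
    induction hc with
    | refl => exact Relation.ReflTransGen.refl
    | @tail p q _ h2 ih =>
      obtain ⟨hp, hq⟩ := E_J hr h2.1
      refine ih.tail ⟨(hs.E p hp q hq).2 h2.1, ?_⟩
      rw [hs.Z p q h2.1]; exact h2.2
  have hv := addRl_valid (m := m) hs.val hφs
  have hX : ∀ j ∈ r.J, ∀ f ∈ (addRl s φ m i).X j, f ∈ r.X j ∨ f = .rl φ m := by
    rintro j hj f (hf | hf)
    · rw [hs.X j hj] at hf; exact Or.inl hf
    · exact Or.inr hf.1
  obtain ⟨anc, a1, a2, a3⟩ := hs.anc
  refine ⟨addRl s φ m i, hv, ?_, Or.inr ⟨rfl, Relation.ReflTransGen.refl⟩, hX, ?_, hs.lev,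
    ⟨anc, fun q h1 h2 => hTJ (a1 q h1 h2), a2, a3⟩⟩
  · refine {
      n := hs.n
      rt := hs.rt
      J := hs.J
      E := hs.E
      K := hs.K
      Z := hs.Z
      X := fun j hj => ⟨fun f hf => Or.inl (by rw [hs.X j hj]; exact hf), fun x m' v _ hf =>
        (hX j hj _ hf).resolve_right fun h => by cases h⟩
      rel := fun j hj ψ h1 m' h2 h3 => ?_ }
    rcases h2 with h2 | ⟨h2, hc⟩
    · rw [hs.X j hj] at h2; exact absurd h2 h3
    · obtain ⟨e1, e2⟩ := Fact.rl.inj h2
      obtain ⟨ρ, hρ⟩ := hs.emb j (hcn j hc)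
      refine ⟨e, ρ, ?_, ?_⟩
      · rw [e1, e2]; exact hev
      · refine {
          n := hρ.n
          rt := hρ.rt
          J := hρ.J
          inj := hρ.inj
          new := hρ.new
          E := hρ.E
          E' := hρ.E'
          K := hρ.K
          Z := hρ.Z
          X := fun a ha => ⟨⟨fun f hf => Or.inl ((hρ.X a ha).sub hf), ?_⟩, ?_⟩ }
        · rintro x m'' v h4 (h5 | ⟨h5, _⟩)
          · exact (hρ.X a ha).it x m'' v h4 h5
          · cases h5
        · rintro ψ' m'' h4 (h5 | ⟨h5, _⟩)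
          · exact (hρ.X a ha).rl ψ' m'' h4 h5
          · exfalso
            have e3 := (Fact.rl.inj h5).1
            have := he.lab a ψ' h4
            rw [e3] at this
            exact Ll.irrefl _ this
  · intro j hj q hq hE
    obtain ⟨h1, h2⟩ := hs.ne j hj q hq hE
    exact ⟨h1, h2⟩

end Pool.Agent.H41.DL
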