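import Pool.Agent.DL.P.Defs

/-!
# DELTA (MP_d362fb_lc): gluing two systems at one component
-/

set_option autoImplicit false

namespace Pool.Agent.H41.DL

open H5.DL Pool.Agent.DL.P

/-- `p` and `q` are connected by edges whose frames have the fact `f` -/
def Cn (r : Sys Prom) (f : Fact Prom) : ℕ → ℕ → Prop :=
  Relation.ReflTransGen (fun p q => r.E p q ∧ (r.Z p q).Has f)

theorem Cn.symm {Lg : Prom → Prop} {r : Sys Prom} (h : Valid Lg r) {f : Fact Prom} {p q : ℕ}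
    (hc : Cn r f p q) : Cn r f q p := by
  induction hc with
  | refl => exact Relation.ReflTransGen.refl
  | tail _ h2 ih =>
    exact Relation.ReflTransGen.head ⟨h.Es _ _ h2.1, by rw [h.symZ]; exact h2.2⟩ ih

theorem Cn.mem {Lg : Prom → Prop} {r : Sys Prom} (h : Valid Lg r) {f : Fact Prom} {p q : ℕ}
    (hc : Cn r f p q) (hf : f ∈ r.X p) : f ∈ r.X q := by
  induction hc with
  | refl => exact hf
  | tail _ h2 ih => exact h.sh _ _ h2.1 f h2.2 ih

theorem Cn.J {Lg : Prom → Prop} {r : Sys Prom} (h : Valid Lg r) {f : Fact Prom} {p q : ℕ}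
    (hc : Cn r f p q) (hp : p ∈ r.J) : q ∈ r.J := by
  induction hc with
  | refl => exact hp
  | tail _ h2 _ => exact h.EJ _ _ (h.Es _ _ h2.1)

theorem Cn.mono {r : Sys Prom} {f g : Fact Prom} {p q : ℕ}
    (hfg : ∀ Z : Fr Prom, Z.Has f → Z.Has g) (hc : Cn r f p q) : Cn r g p q := by
  induction hc with
  | refl => exact Relation.ReflTransGen.refl
  | tail _ h2 ih => exact ih.tail ⟨h2.1, hfg _ h2.2⟩

theorem has_ds1 {Z : Fr Prom} {x y : Node} (h : Z.Has (.ds x y)) : Z.Has (.nd x) :=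
  And.left (show x ∈ Z.N ∧ y ∈ Z.N from h)

theorem has_ds2 {Z : Fr Prom} {x y : Node} (h : Z.Has (.ds x y)) : Z.Has (.nd y) :=
  And.right (show x ∈ Z.N ∧ y ∈ Z.N from h)

theorem In_lab {Z : Fr Prom} {φ : Prom} (h : φ.In Z) : φ.lab ∈ Z.L := by
  cases φ with
  | nil k => exact h
  | mk k c nd lb R => exact h.1

theorem Cn.lab {Lg : Prom → Prop} {r : Sys Prom} (h : Valid Lg r) {φ : Prom} {p q : ℕ}
    (hc : Cn r (.pr φ) p q) (hp : φ.lab ∈ r.K p) : φ.lab ∈ r.K q := by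
  induction hc with
  | refl => exact hp
  | tail _ h2 ih => exact h.adm _ _ h2.1 _ (In_lab ((h.good _ _ h2.1).z3 φ h2.2)) ih

/-- the contents `Y` of a component `j` pushed to the component `p` -/
theorem valx_push {Lg : Prom → Prop} {r : Sys Prom} (h : Valid Lg r) {p j : ℕ} (hp : p ∈ r.J)
    {K' : Set D} {Y : Set (Fact Prom)} (hY : ValX Lg r.n K' Y)
    (hit : ∀ x m v, .nd x ∈ r.X j → .nd x ∈ Y → (.it x m v ∈ r.X j ↔ .it x m v ∈ Y))
    (hlab : ∀ φ, .pr φ ∈ Y → φ.lab ∈ r.K j) :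
    ValX Lg r.n (r.K p) {f | f ∈ r.X p ∨ f ∈ Y ∧ Cn r f j p} where
  fin := ((h.val p hp).fin.union hY.fin).subset (by
    rintro f (hf | hf)
    · exact Or.inl hf
    · exact Or.inr hf.1)
  itb := by
    rintro x m v (hf | ⟨hf, hc⟩)
    · exact ⟨Or.inl ((h.val p hp).itb x m v hf).1, ((h.val p hp).itb x m v hf).2⟩
    · exact ⟨Or.inr ⟨(hY.itb x m v hf).1, hc⟩, (hY.itb x m v hf).2⟩
  blx := by
    rintro x m (hf | ⟨hf, hc⟩)
    · exact Or.inl ((h.val p hp).blx x m hf)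
    · exact Or.inr ⟨hY.blx x m hf, hc⟩
  dsx := by
    rintro x y (hf | ⟨hf, hc⟩)
    · exact ⟨Or.inl ((h.val p hp).dsx x y hf).1, Or.inl ((h.val p hp).dsx x y hf).2⟩
    · exact ⟨Or.inr ⟨(hY.dsx x y hf).1, hc.mono fun Z hZ => has_ds1 hZ⟩,
        Or.inr ⟨(hY.dsx x y hf).2, hc.mono fun Z hZ => has_ds2 hZ⟩⟩
  rlx := by
    rintro φ m (hf | ⟨hf, hc⟩)
    · exact Or.inl ((h.val p hp).rlx φ m hf)
    · exact Or.inr ⟨hY.rlx φ m hf, hc⟩
  fn := by
    have key : ∀ x m v v', .it x m v ∈ r.X p → .it x m v' ∈ Y → Cn r (.it x m v') j p →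
        v = v' := by
      intro x m v v' h1 h2 hc
      have hc' : Cn r (.it x m v) j p := hc.mono fun Z hZ => hZ
      have h3 : .it x m v ∈ r.X j := (hc'.symm h).mem h h1
      have hj : Fact.nd x ∈ r.X j := by
        have h4 : Fact.nd x ∈ r.X p :=
          (h.val p hp).blx x m ((h.val p hp).itb x m v h1).1
        have hc2 : Cn r (.nd x) j p := hc.mono fun Z hZ => hZ
        exact (hc2.symm h).mem h h4
      have h5 := (hit x m v hj (hY.blx x m (hY.itb x m v' h2).1)).1 h3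
      exact hY.fn x m v v' h5 h2
    rintro x m v v' (h1 | ⟨h1, hc1⟩) (h2 | ⟨h2, hc2⟩)
    · exact (h.val p hp).fn x m v v' h1 h2
    · exact key x m v v' h1 h2 hc2
    · exact (key x m v' v h2 h1 hc1).symm
    · exact hY.fn x m v v' h1 h2
  leg := by
    rintro φ (hf | ⟨hf, hc⟩)
    · exact (h.val p hp).leg φ hf
    · exact ⟨(hY.leg φ hf).1, hc.lab h (hlab φ hf)⟩

/-- union of two forests with one common vertex, base in the first one -/
theorem forest_one {J1 J2 : Set ℕ} {E1 E2 : ℕ → ℕ → Prop} {j : ℕ} (hj1 : j ∈ J1) (hj2 : j ∈ J2)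
    (hJ : ∀ p, p ∈ J1 → p ∈ J2 → p = j) (hE1 : ∀ p q, E1 p q → p ∈ J1 ∧ q ∈ J1)
    (hE2 : ∀ p q, E2 p q → p ∈ J2 ∧ q ∈ J2) (h1 : Forest J1 E1) (h2 : Forest J2 E2) (b : ℕ)
    (hb : b ∈ J1) :
    ∃ rk : ℕ → ℕ, (∀ v ∈ J1 ∪ J2, v ≠ b → rk b < rk v) ∧
      (∀ p q, (E1 p q ∨ E2 p q) → rk p ≠ rk q) ∧
      ∀ v a a', (E1 v a ∨ E2 v a) → (E1 v a' ∨ E2 v a') → rk a < rk v → rk a' < rk v → a = a' := by
  classical
  obtain ⟨f, f1, f2, f3⟩ := h1 b hb
  obtain ⟨g, g1, g2, g3⟩ := h2 j hj2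
  have hbj : f b ≤ f j := by
    by_cases h : j = b
    · rw [h]
    · exact (f1 j hj1 h).le
  let rk : ℕ → ℕ := fun v => if v ∈ J1 then f v else f j + g v + 1
  have r1 : ∀ v ∈ J1, rk v = f v := fun v hv => if_pos hv
  have r2 : ∀ v, v ∉ J1 → rk v = f j + g v + 1 := fun v hv => if_neg hv
  have r3 : ∀ v ∈ J2, v ≠ j → rk v = f j + g v + 1 := fun v hv hvj =>
    r2 v fun h => hvj (hJ v h hv)
  have e2 : ∀ p q, E2 p q → rk p < rk q → g p < g q := by
    intro p q hpq hlt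
    obtain ⟨hp, hq⟩ := hE2 p q hpq
    have hne := g2 p q hpq
    by_cases hpj : p = j
    · have hqj : q ≠ j := fun h => hne (by rw [hpj, h])
      rw [hpj]; exact g1 q hq hqj
    · by_cases hqj : q = j
      · rw [r3 p hp hpj, hqj, r1 j hj1] at hlt; omega
      · rw [r3 p hp hpj, r3 q hq hqj] at hlt; omega
  refine ⟨rk, ?_, ?_, ?_⟩
  · intro v hv hvb
    rw [r1 b hb]
    by_cases hv1 : v ∈ J1
    · rw [r1 v hv1]; exact f1 v hv1 hvb
    · rw [r2 v hv1]; omega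
  · rintro p q (h | h)
    · obtain ⟨hp, hq⟩ := hE1 p q h
      rw [r1 p hp, r1 q hq]; exact f2 p q h
    · obtain ⟨hp, hq⟩ := hE2 p q h
      have hne := g2 p q h
      by_cases hpj : p = j
      · have hqj : q ≠ j := fun h => hne (by rw [hpj, h])
        rw [hpj, r1 j hj1, r3 q hq hqj]; omega
      · by_cases hqj : q = j
        · rw [hqj, r1 j hj1, r3 p hp hpj]; omega
        · rw [r3 p hp hpj, r3 q hq hqj]; omega
  · intro v a a' ha ha' hl hl'
    have low : ∀ a, E2 v a → rk a < rk v → v ≠ j := by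
      intro a h2 hl hvj
      obtain ⟨_, hq⟩ := hE2 v a h2
      have hne := g2 v a h2
      have haj : a ≠ j := fun h => hne (by rw [hvj, h])
      rw [hvj, r1 j hj1, r3 a hq haj] at hl; omega
    rcases ha with ha | ha <;> rcases ha' with ha' | ha'
    · obtain ⟨hv, h3⟩ := hE1 v a ha
      obtain ⟨_, h4⟩ := hE1 v a' ha'
      rw [r1 v hv] at hl hl'
      rw [r1 a h3] at hl
      rw [r1 a' h4] at hl'
      exact f3 v a a' ha ha' hl hl'
    · exact absurd (hJ v (hE1 v a ha).1 (hE2 v a' ha').1) (low a' ha' hl')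
    · exact absurd (hJ v (hE1 v a' ha').1 (hE2 v a ha).1) (low a ha hl)
    · have h5 : ∀ a, E2 v a → rk a < rk v → g a < g v := by
        intro a h6 h7
        have hvj := low a h6 h7
        obtain ⟨hv, hq⟩ := hE2 v a h6
        by_cases haj : a = j
        · rw [haj]; exact g1 v hv hvj
        · rw [r3 a hq haj, r3 v hv hvj] at h7; omega
      exact g3 v a a' ha ha' (h5 a ha hl) (h5 a' ha' hl')

/-- union of two forests with one common vertex -/
theorem forest_union {J1 J2 : Set ℕ} {E1 E2 : ℕ → ℕ → Prop} {j : ℕ} (hj1 : j ∈ J1)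
    (hj2 : j ∈ J2) (hJ : ∀ p, p ∈ J1 → p ∈ J2 → p = j) (hE1 : ∀ p q, E1 p q → p ∈ J1 ∧ q ∈ J1)
    (hE2 : ∀ p q, E2 p q → p ∈ J2 ∧ q ∈ J2) (h1 : Forest J1 E1) (h2 : Forest J2 E2) :
    Forest (J1 ∪ J2) (fun p q => E1 p q ∨ E2 p q) := by
  rintro b (hb | hb)
  · exact forest_one hj1 hj2 hJ hE1 hE2 h1 h2 b hb
  · obtain ⟨rk, h3, h4, h5⟩ := forest_one hj2 hj1 (fun p hp hq => hJ p hq hp) hE2 hE1 h2 h1 b hb
    refine ⟨rk, fun v hv => h3 v hv.symm, fun p q h => h4 p q h.symm, ?_⟩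
    exact fun v a a' ha ha' => h5 v a a' ha.symm ha'.symm

/-- the hypotheses for gluing `r2` to `r1` at the component `j` -/
structure GH (Lg : Prom → Prop) (r1 r2 : Sys Prom) (j : ℕ) : Prop where
  v1 : Valid Lg r1
  v2 : Valid Lg r2
  n : r1.n = r2.n
  j1 : j ∈ r1.J
  j2 : r2.rt = j
  J : ∀ p, p ∈ r1.J → p ∈ r2.J → p = j
  top : r2.K j = Set.univ
  Z : ∀ a, r2.E j a → ∀ l ∈ (r2.Z j a).L, l ∈ r1.K j
  P : ∀ φ, .pr φ ∈ r2.X j → φ.lab ∈ r1.K j
  it : ∀ x m v, .nd x ∈ r1.X j → .nd x ∈ r2.X j → (.it x m v ∈ r1.X j ↔ .it x m v ∈ r2.X j)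
  rl : ∀ φ m, .pr φ ∈ r1.X j → .pr φ ∈ r2.X j → (.rl φ m ∈ r1.X j ↔ .rl φ m ∈ r2.X j)

open Classical in
/-- the glued system -/
noncomputable def glue (r1 r2 : Sys Prom) (j : ℕ) : Sys Prom where
  n := r1.n
  rt := r1.rt
  J := r1.J ∪ r2.J
  E := fun p q => r1.E p q ∨ r2.E p q
  K := fun p => if p ∈ r1.J then r1.K p else r2.K p
  Z := fun p q => if r1.E p q then r1.Z p q else r2.Z p q
  X := fun p => {f | f ∈ r1.X p ∨ f ∈ r2.X p ∨ (f ∈ r2.X j ∧ Cn r1 f j p) ∨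
    (f ∈ r1.X j ∧ Cn r2 f j p)}

section

variable {Lg : Prom → Prop} {r1 r2 : Sys Prom} {j : ℕ}

theorem GH.rt (h : GH Lg r1 r2 j) : j ∈ r2.J := h.j2 ▸ h.v2.rt

theorem ne_of_E {r : Sys Prom} (h : Valid Lg r) {p q : ℕ} (hE : r.E p q) : p ≠ q := by
  obtain ⟨rk, _, h2, _⟩ := h.forest p (h.EJ p q hE)
  intro hpq
  exact h2 p q hE (by rw [hpq])

theorem E_J {r : Sys Prom} (h : Valid Lg r) {p q : ℕ} (hE : r.E p q) : p ∈ r.J ∧ q ∈ r.J :=
  ⟨h.EJ p q hE, h.EJ q p (h.Es p q hE)⟩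

theorem mem_J {r : Sys Prom} (h : Valid Lg r) {p : ℕ} {f : Fact Prom} (hf : f ∈ r.X p) :
    p ∈ r.J := by
  by_contra hp
  rw [h.nX p hp] at hf
  exact hf

theorem GH.notE1 (h : GH Lg r1 r2 j) {p q : ℕ} (hE : r2.E p q) : ¬ r1.E p q := by
  intro hE'
  have h1 := E_J h.v1 hE'
  have h2 := E_J h.v2 hE
  exact ne_of_E h.v1 hE' ((h.J p h1.1 h2.1).trans (h.J q h1.2 h2.2).symm)

theorem GH.Z1 (_h : GH Lg r1 r2 j) {p q : ℕ} (hE : r1.E p q) :
    (glue r1 r2 j).Z p q = r1.Z p q := if_pos hE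

theorem GH.Z2 (h : GH Lg r1 r2 j) {p q : ℕ} (hE : r2.E p q) :
    (glue r1 r2 j).Z p q = r2.Z p q := if_neg (h.notE1 hE)

theorem GH.K1 (_h : GH Lg r1 r2 j) {p : ℕ} (hp : p ∈ r1.J) : (glue r1 r2 j).K p = r1.K p :=
  if_pos hp

theorem GH.K2 (h : GH Lg r1 r2 j) {p : ℕ} (hp : p ∈ r2.J) (hpj : p ≠ j) :
    (glue r1 r2 j).K p = r2.K p := if_neg fun h1 => hpj (h.J p h1 hp)

/-- contents of the first part -/
theorem GH.X1 (h : GH Lg r1 r2 j) {p : ℕ} (hp : p ∈ r1.J) :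
    (glue r1 r2 j).X p = {f | f ∈ r1.X p ∨ f ∈ r2.X j ∧ Cn r1 f j p} := by
  ext f
  constructor
  · rintro (hf | hf | hf | ⟨hf, hc⟩)
    · exact Or.inl hf
    · have := h.J p hp (mem_J h.v2 hf)
      subst this
      exact Or.inr ⟨hf, Relation.ReflTransGen.refl⟩
    · exact Or.inr hf
    · have := h.J p hp (hc.J h.v2 h.rt)
      subst this
      exact Or.inl hf
  · rintro (hf | hf)
    · exact Or.inl hf
    · exact Or.inr (Or.inr (Or.inl hf))

/-- contents of the second part -/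
theorem GH.X2 (h : GH Lg r1 r2 j) {p : ℕ} (hp : p ∈ r2.J) :
    (glue r1 r2 j).X p = {f | f ∈ r2.X p ∨ f ∈ r1.X j ∧ Cn r2 f j p} := by
  ext f
  constructor
  · rintro (hf | hf | ⟨hf, hc⟩ | hf)
    · have := h.J p (mem_J h.v1 hf) hp
      subst this
      exact Or.inr ⟨hf, Relation.ReflTransGen.refl⟩
    · exact Or.inl hf
    · have := h.J p (hc.J h.v1 h.j1) hp
      subst this
      exact Or.inl hf
    · exact Or.inr hf
  · rintro (hf | hf)
    · exact Or.inr (Or.inl hf)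
    · exact Or.inr (Or.inr (Or.inr hf))

theorem glue_valid (h : GH Lg r1 r2 j) : Valid Lg (glue r1 r2 j) where
  fin := h.v1.fin.union h.v2.fin
  rt := Or.inl h.v1.rt
  Es := fun p q => by
    rintro (hE | hE)
    · exact Or.inl (h.v1.Es p q hE)
    · exact Or.inr (h.v2.Es p q hE)
  EJ := fun p q => by
    rintro (hE | hE)
    · exact Or.inl (h.v1.EJ p q hE)
    · exact Or.inr (h.v2.EJ p q hE)
  forest := forest_union h.j1 h.rt h.J (fun p q hE => E_J h.v1 hE) (fun p q hE => E_J h.v2 hE)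
    h.v1.forest h.v2.forest
  low := fun p hp => by
    by_cases hp1 : p ∈ r1.J
    · rw [h.K1 hp1]; exact h.v1.low p hp1
    · have hp2 : p ∈ r2.J := hp.resolve_left hp1
      rw [h.K2 hp2 fun h' => hp1 (h' ▸ h.j1)]; exact h.v2.low p hp2
  symZ := fun p q => by
    classical
    have e : r1.E p q ↔ r1.E q p := ⟨h.v1.Es p q, h.v1.Es q p⟩
    show (if r1.E p q then r1.Z p q else r2.Z p q) = if r1.E q p then r1.Z q p else r2.Z q p
    by_cases hE : r1.E p q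
    · rw [if_pos hE, if_pos (e.1 hE), h.v1.symZ]
    · rw [if_neg hE, if_neg fun h' => hE (e.2 h'), h.v2.symZ]
  good := fun p q => by
    rintro (hE | hE)
    · rw [h.Z1 hE]; exact h.v1.good p q hE
    · rw [h.Z2 hE]; exact h.v2.good p q hE
  nX := fun p hp => by
    have hp1 : p ∉ r1.J := fun h' => hp (Or.inl h')
    have hp2 : p ∉ r2.J := fun h' => hp (Or.inr h')
    rw [Set.eq_empty_iff_forall_notMem]
    rintro f (hf | hf | ⟨hf, hc⟩ | ⟨hf, hc⟩)
    · exact hp1 (mem_J h.v1 hf)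
    · exact hp2 (mem_J h.v2 hf)
    · exact hp1 (hc.J h.v1 h.j1)
    · exact hp2 (hc.J h.v2 h.rt)
  nZ := fun p q hE => by
    have hE1 : ¬ r1.E p q := fun h' => hE (Or.inl h')
    have hE2 : ¬ r2.E p q := fun h' => hE (Or.inr h')
    classical
    show (if r1.E p q then r1.Z p q else r2.Z p q) = Fr.emp
    rw [if_neg hE1]; exact h.v2.nZ p q hE2
  val := fun p hp => by
    by_cases hp1 : p ∈ r1.J
    · rw [h.K1 hp1, h.X1 hp1]
      show ValX Lg r1.n _ _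
      refine valx_push h.v1 hp1 (K' := r2.K j) ?_ h.it h.P
      rw [h.n]; exact h.v2.val j h.rt
    · have hp2 : p ∈ r2.J := hp.resolve_left hp1
      rw [h.K2 hp2 fun h' => hp1 (h' ▸ h.j1), h.X2 hp2]
      show ValX Lg r1.n _ _
      rw [h.n]
      refine valx_push h.v2 hp2 (K' := r1.K j) ?_ ?_ ?_
      · rw [← h.n]; exact h.v1.val j h.j1
      · exact fun x m v h1 h2 => (h.it x m v h2 h1).symm
      · intro φ _; rw [h.top]; trivial
  adm := fun p q => by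
    rintro (hE | hE)
    · rw [h.Z1 hE, h.K1 (E_J h.v1 hE).1, h.K1 (E_J h.v1 hE).2]
      exact h.v1.adm p q hE
    · rw [h.Z2 hE]
      intro l hl hlp
      obtain ⟨hp, hq⟩ := E_J h.v2 hE
      by_cases hpj : p = j
      · have hqj : q ≠ j := fun h' => ne_of_E h.v2 hE (hpj.trans h'.symm)
        rw [h.K2 hq hqj]
        refine h.v2.adm p q hE l hl ?_
        rw [hpj, h.top]; trivial
      · by_cases hqj : q = j
        · rw [hqj, h.K1 h.j1]
          have hE' := h.v2.Es p q hE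
          rw [hqj] at hE'
          rw [h.v2.symZ, hqj] at hl
          exact h.Z p hE' l hl
        · rw [h.K2 hq hqj]
          rw [h.K2 hp hpj] at hlp
          exact h.v2.adm p q hE l hl hlp
  sh := fun p q => by
    rintro (hE | hE) f hZ hf
    · obtain ⟨hp, hq⟩ := E_J h.v1 hE
      rw [h.Z1 hE] at hZ
      rw [h.X1 hp] at hf
      rw [h.X1 hq]
      rcases hf with hf | ⟨hf, hc⟩
      · exact Or.inl (h.v1.sh p q hE f hZ hf)
      · exact Or.inr ⟨hf, hc.tail ⟨hE, hZ⟩⟩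
    · obtain ⟨hp, hq⟩ := E_J h.v2 hE
      rw [h.Z2 hE] at hZ
      rw [h.X2 hp] at hf
      rw [h.X2 hq]
      rcases hf with hf | ⟨hf, hc⟩
      · exact Or.inl (h.v2.sh p q hE f hZ hf)
      · exact Or.inr ⟨hf, hc.tail ⟨hE, hZ⟩⟩

/-- pushing `Y` from `j` to `p` does not change the items and the released positions of the old
nodes and promises -/
theorem ex_push {r : Sys Prom} (h : Valid Lg r) {p : ℕ} {n : ℕ}
    {K' : Set D} {Y : Set (Fact Prom)} (hY : ValX Lg n K' Y)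
    (hit : ∀ x m v, .nd x ∈ r.X j → .nd x ∈ Y → (.it x m v ∈ r.X j ↔ .it x m v ∈ Y))
    (hrl : ∀ φ m, .pr φ ∈ r.X j → .pr φ ∈ Y → (.rl φ m ∈ r.X j ↔ .rl φ m ∈ Y)) :
    Ex (r.X p) {f | f ∈ r.X p ∨ f ∈ Y ∧ Cn r f j p} where
  sub := fun f hf => Or.inl hf
  it := by
    rintro x m v hx (hf | ⟨hf, hc⟩)
    · exact hf
    · have hc1 : Cn r (.nd x) j p := hc.mono fun Z hZ => hZ
      have h1 : Fact.nd x ∈ r.X j := (hc1.symm h).mem h hx
      exact hc.mem h ((hit x m v h1 (hY.blx x m (hY.itb x m v hf).1)).2 hf)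
  rl := by
    rintro φ m hx (hf | ⟨hf, hc⟩)
    · exact hf
    · have hc1 : Cn r (.pr φ) j p := hc.mono fun Z hZ => hZ
      have h1 : Fact.pr φ ∈ r.X j := (hc1.symm h).mem h hx
      exact hc.mem h ((hrl φ m h1 (hY.rlx φ m hf)).2 hf)

theorem GH.ex1 (h : GH Lg r1 r2 j) {p : ℕ} (hp : p ∈ r1.J) :
    Ex (r1.X p) ((glue r1 r2 j).X p) := by
  rw [h.X1 hp]
  exact ex_push h.v1 (h.v2.val j h.rt) h.it h.rl

theorem GH.ex2 (h : GH Lg r1 r2 j) {p : ℕ} (hp : p ∈ r2.J) :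
    Ex (r2.X p) ((glue r1 r2 j).X p) := by
  rw [h.X2 hp]
  exact ex_push h.v2 (h.v1.val j h.j1) (fun x m v h1 h2 => (h.it x m v h2 h1).symm)
    (fun φ m h1 h2 => (h.rl φ m h2 h1).symm)

theorem glue_ext1 (h : GH Lg r1 r2 j) : Ext r1 (glue r1 r2 j) where
  n := rfl
  rt := rfl
  J := fun p hp => Or.inl hp
  E := fun p hp q hq => ⟨fun hE => hE.elim id fun hE2 => by
    obtain ⟨hp2, hq2⟩ := E_J h.v2 hE2
    exact absurd ((h.J p hp hp2).trans (h.J q hq hq2).symm) (ne_of_E h.v2 hE2), Or.inl⟩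
  K := fun p hp => h.K1 hp
  Z := fun p q hE => h.Z1 hE
  X := fun p hp => (h.ex1 hp).toGr
  rel := fun p hp φ h1 m h2 h3 => absurd ((h.ex1 hp).rl φ m h1 h2) h3

theorem glue_ext2 (h : GH Lg r1 r2 j) (hrt : r1.rt = j) (ht : r1.K j = Set.univ) :
    Ext r2 (glue r1 r2 j) where
  n := h.n
  rt := hrt.trans h.j2.symm
  J := fun p hp => Or.inr hp
  E := fun p hp q hq => ⟨fun hE => hE.elim (fun hE1 => by
    obtain ⟨hp1, hq1⟩ := E_J h.v1 hE1
    exact absurd ((h.J p hp1 hp).trans (h.J q hq1 hq).symm) (ne_of_E h.v1 hE1)) id, Or.inr⟩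
  K := fun p hp => by
    by_cases hpj : p = j
    · rw [hpj, h.K1 h.j1, ht, h.top]
    · exact h.K2 hp hpj
  Z := fun p q hE => h.Z2 hE
  X := fun p hp => (h.ex2 hp).toGr
  rel := fun p hp φ h1 m h2 h3 => absurd ((h.ex2 hp).rl φ m h1 h2) h3

/-- the second system is embedded -/
theorem glue_emb (h : GH Lg r1 r2 j) : Emb r2 (glue r1 r2 j) r1.J j id where
  n := h.n.symm
  rt := h.j2
  J := fun a ha => Or.inr ha
  inj := fun a _ b _ hab => hab
  new := fun a ha hne h1 => hne ((h.J a h1 ha).trans h.j2.symm)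
  E := fun a b hE => Or.inr hE
  E' := fun a ha hne w hE => by
    rcases hE with hE | hE
    · exact absurd ((h.J a (E_J h.v1 hE).1 ha).trans h.j2.symm) hne
    · exact ⟨w, hE, rfl⟩
  K := fun a ha hne => h.K2 ha (h.j2 ▸ hne)
  Z := fun a b hE => h.Z2 hE
  X := fun a ha => h.ex2 ha

end

end Pool.Agent.H41.DL
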